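import Pool.Agent.P.MP_714120_an.Main

/-! No positive minimal graph with zero boundary values lives over a plane domain whose
asymptotic angle is less than pi. -/

open Filter Set MeasureTheory Topology

noncomputable section
namespace Pool.Agent.Results.MP_714120_an.NoSolution

/-- the derivative of `u` in the `x` direction -/
def dx (u : ℂ → ℝ) (z : ℂ) : ℝ := fderiv ℝ u z 1

/-- the derivative of `u` in the `y` direction -/
def dy (u : ℂ → ℝ) (z : ℂ) : ℝ := fderiv ℝ u z Complex.I

/-- the area element `sqrt (1 + |grad u|^2)` -/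
def area (u : ℂ → ℝ) (z : ℂ) : ℝ := √(1 + dx u z ^ 2 + dy u z ^ 2)

/-- `u` solves the boundary value problem on `D`: it is of class `C^2` in `D`, continuous on the
closure, satisfies `div (grad u / sqrt (1 + |grad u|^2)) = 0` and `u > 0` in `D`, and vanishes on
the boundary. -/
def IsSolution (D : Set ℂ) (u : ℂ → ℝ) : Prop :=
  ContDiffOn ℝ 2 u D ∧ ContinuousOn u (closure D) ∧
    (∀ z ∈ D, dx (fun w => dx u w / area u w) z + dy (fun w => dy u w / area u w) z = 0) ∧
    (∀ z ∈ D, 0 < u z) ∧ ∀ z ∈ frontier D, u z = 0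

open Classical in
/-- the angular measure of `D` on the circle of radius `r`, infinite if the circle lies in `D` -/
def thetaStar (D : Set ℂ) (r : ℝ) : ENNReal :=
  if Metric.sphere (0 : ℂ) r ⊆ D then ⊤
  else volume {θ : ℝ | θ ∈ Ico 0 (2 * Real.pi) ∧ (r : ℂ) * Complex.exp (θ * Complex.I) ∈ D}

/-- the asymptotic angle of `D` -/
def asymptoticAngle (D : Set ℂ) : ENNReal := limsup (thetaStar D) atTop

open Pool.Agent.P.MP_714120_an in
theorem result (D : Set ℂ) (hopen : IsOpen D) (hconn : IsConnected D)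
    (_hunb : ¬ Bornology.IsBounded D) (_hbd : (frontier D).Nonempty)
    (hangle : asymptoticAngle D < ENNReal.ofReal Real.pi) : ¬ ∃ u : ℂ → ℝ, IsSolution D u := by
  rintro ⟨u, c2, c0, mse, pos, bd⟩
  have hp : ∀ z, 0 < D.indicator u z ↔ z ∈ D := fun z =>
    ⟨fun h => mem_of_indicator_ne_zero h.ne', fun h => by rw [indicator_of_mem h]; exact pos z h⟩
  have ev : ∀ z ∈ D, D.indicator u =ᶠ[𝓝 z] u := fun z hz => by
    filter_upwards [hopen.mem_nhds hz] with w hw using indicator_of_mem hw u
  have H : Sol (D.indicator u) := by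
    refine ⟨continuous_indicator bd c0, fun z => indicator_apply_nonneg fun h => (pos z h).le,
      fun z hz => (c2.contDiffAt (hopen.mem_nhds ((hp z).1 hz))).congr_of_eventuallyEq
        (ev z ((hp z).1 hz)), fun z hz => ?_⟩
    have e := (ev z ((hp z).1 hz)).fderiv (𝕜 := ℝ)
    have e1 : (fun w => ux (D.indicator u) w / Wf (D.indicator u) w) =ᶠ[𝓝 z]
        fun w => dx u w / area u w := e.mono fun w hw => by simp only [ux, uy, Wf, dx, dy, area, hw]
    have e2 : (fun w => uy (D.indicator u) w / Wf (D.indicator u) w) =ᶠ[𝓝 z]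
        fun w => dy u w / area u w := e.mono fun w hw => by simp only [ux, uy, Wf, dx, dy, area, hw]
    rw [mseAt, e1.fderiv_eq, e2.fderiv_eq]
    exact mse z ((hp z).1 hz)
  obtain ⟨b, hb1, hb2⟩ := exists_between hangle
  obtain ⟨R, hR⟩ := eventually_atTop.1 (eventually_lt_of_limsup_lt hb1)
  have hA : Ang (D.indicator u) b.toReal R := fun r hr => by
    rw [ENNReal.ofReal_toReal (hb2.trans_le le_top).ne]
    refine le_trans ?_ (hR r hr).le
    unfold thetaStar
    split_ifs
    · exact le_top
    · simp only [hp, le_refl]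
  obtain ⟨z, hz⟩ := hconn.nonempty
  exact ((hp z).2 hz).ne' (main H hA ENNReal.toReal_nonneg
    (ENNReal.toReal_lt_of_lt_ofReal hb2) z)

end Pool.Agent.Results.MP_714120_an.NoSolution
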